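import Pool.Agent.BES.Stmts

set_option autoImplicit false

/-!
# BES, row HSM: smoothness of `Hf`, the Euler identity and the size of the gradient
-/

namespace Pool.Agent.BES.H77

open Set Filter Topology MeasureTheory
open scoped InnerProductSpace ENNReal ComplexConjugate
open Pool.Agent.BE01 Pool.Agent.BES

noncomputable section

/-- the isometry of the plane with the complex numbers -/
def JJ : En 2 ≃ₗᵢ[ℝ] ℂ := Complex.orthonormalBasisOneI.repr.symm

theorem JJ_apply (x : En 2) : JJ x = (x 0 : ℂ) + (x 1 : ℂ) * Complex.I :=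
  Complex.orthonormalBasisOneI_repr_symm_apply x

theorem JJ_re (x : En 2) : (JJ x).re = x 0 := by
  rw [JJ_apply]
  simp

theorem JJ_im (x : En 2) : (JJ x).im = x 1 := by
  rw [JJ_apply]
  simp

theorem slt_open : IsOpen Slt := by
  have h : Continuous fun x : En 2 => x 0 := (EuclideanSpace.proj (0 : Fin 2)).continuous
  exact isOpen_lt continuous_norm.neg h

theorem slt_slit {x : En 2} (hx : x ∈ Slt) : JJ x ∈ Complex.slitPlane := by
  rw [Complex.mem_slitPlane_iff, JJ_re, JJ_im]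
  by_cases h1 : x 1 = 0
  · left
    have h2 : - ‖x‖ < x 0 := hx
    have h3 : ‖x‖ = |x 0| := by
      rw [← JJ.norm_map x, JJ_apply, h1]
      simp
    rw [h3] at h2
    by_contra h4
    push Not at h4
    rw [abs_of_nonpos h4] at h2
    linarith
  · exact Or.inr h1

theorem slt_ne {x : En 2} (hx : x ∈ Slt) : JJ x ≠ 0 := Complex.slitPlane_ne_zero (slt_slit hx)

theorem Hf_eq (μ : ℝ) {x : En 2} (hx : x ∈ Slt) : Hf μ x = ((JJ x) ^ (μ : ℂ)).re := by
  have hz := slt_ne hx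
  have hn : 0 < ‖JJ x‖ := norm_pos_iff.2 hz
  have hn' : ‖JJ x‖ = ‖x‖ := JJ.norm_map x
  have h1 : Real.arccos (x 0 / ‖x‖) = |Complex.arg (JJ x)| := by
    rw [← JJ_re, ← hn', ← Complex.cos_arg hz, ← Real.cos_abs]
    exact Real.arccos_cos (abs_nonneg _) (Complex.abs_arg_le_pi _)
  have h2 : Real.cos (μ * |Complex.arg (JJ x)|) = Real.cos (μ * Complex.arg (JJ x)) := by
    rcases abs_cases (Complex.arg (JJ x)) with ⟨h, _⟩ | ⟨h, _⟩
    · rw [h]
    · rw [h, mul_neg, Real.cos_neg]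
  unfold Hf
  rw [h1, h2, Complex.cpow_def_of_ne_zero hz, Complex.exp_re, ← hn']
  have e1 : (Complex.log (JJ x) * (μ : ℂ)).re = Real.log ‖JJ x‖ * μ := by
    rw [Complex.re_mul_ofReal, Complex.log_re]
  have e2 : (Complex.log (JJ x) * (μ : ℂ)).im = Complex.arg (JJ x) * μ := by
    rw [Complex.im_mul_ofReal, Complex.log_im]
  rw [e1, e2, Real.rpow_def_of_pos hn, mul_comm μ]

/-- the derivative -/
def dF (μ : ℝ) (x : En 2) : ℂ := (μ : ℂ) * (JJ x) ^ ((μ : ℂ) - 1)

theorem Hf_grad (μ : ℝ) {x : En 2} (hx : x ∈ Slt) :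
    HasGradientAt (Hf μ) (JJ.symm (conj (dF μ x))) x := by
  rw [hasGradientAt_iff_hasFDerivAt]
  have hd : HasDerivAt (fun z : ℂ => z ^ (μ : ℂ)) (dF μ x) (JJ x) := by
    have h := (hasDerivAt_id (JJ x)).cpow_const (c := (μ : ℂ)) (slt_slit hx)
    rw [mul_one] at h
    exact h
  have hd1 : HasFDerivAt (fun z : ℂ => z ^ (μ : ℂ))
      ((ContinuousLinearMap.toSpanSingleton ℂ (dF μ x)).restrictScalars ℝ) (JJ x) :=
    hd.hasFDerivAt.restrictScalars ℝ
  have hJ : HasFDerivAt (fun y : En 2 => JJ y) (JJ.toContinuousLinearEquiv : En 2 →L[ℝ] ℂ) x :=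
    JJ.toContinuousLinearEquiv.hasFDerivAt
  have h2 := hd1.comp x hJ
  have h3 := Complex.reCLM.hasFDerivAt.comp x h2
  have heq : (fun y : En 2 => ((JJ y) ^ (μ : ℂ)).re) =ᶠ[𝓝 x] Hf μ := by
    filter_upwards [slt_open.mem_nhds hx] with y hy
    exact (Hf_eq μ hy).symm
  have h4 : HasFDerivAt (fun y : En 2 => ((JJ y) ^ (μ : ℂ)).re)
      (Complex.reCLM.comp (((ContinuousLinearMap.toSpanSingleton ℂ (dF μ x)).restrictScalars
        ℝ).comp (JJ.toContinuousLinearEquiv : En 2 →L[ℝ] ℂ))) x := h3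
  have h5 := h4.congr_of_eventuallyEq heq.symm
  have h6 : InnerProductSpace.toDual ℝ (En 2) (JJ.symm (conj (dF μ x))) =
      Complex.reCLM.comp (((ContinuousLinearMap.toSpanSingleton ℂ (dF μ x)).restrictScalars
        ℝ).comp (JJ.toContinuousLinearEquiv : En 2 →L[ℝ] ℂ)) := by
    ext v
    rw [InnerProductSpace.toDual_apply_apply, ← JJ.inner_map_map, JJ.apply_symm_apply,
      Complex.inner, Complex.conj_conj]
    rfl
  rw [h6]
  exact h5

/-- **HSM** -/
theorem hsm : HsmStmt := by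
  intro μ
  refine ⟨slt_open, ?_, fun x hx => ?_⟩
  · intro x hx
    refine ContDiffAt.contDiffWithinAt ?_
    have h1 : AnalyticAt ℂ (fun z : ℂ => z ^ (μ : ℂ)) (JJ x) :=
      analyticAt_id.cpow analyticAt_const (slt_slit hx)
    have h2 : ContDiffAt ℝ ((⊤ : ℕ∞) : WithTop ℕ∞) (fun z : ℂ => z ^ (μ : ℂ)) (JJ x) :=
      (h1.contDiffAt (n := ((⊤ : ℕ∞) : WithTop ℕ∞))).restrict_scalars ℝ
    have h3 : ContDiffAt ℝ ((⊤ : ℕ∞) : WithTop ℕ∞) (fun y : En 2 => (JJ y) ^ (μ : ℂ)) x :=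
      h2.comp x JJ.contDiff.contDiffAt
    have h4 : ContDiffAt ℝ ((⊤ : ℕ∞) : WithTop ℕ∞) (fun y : En 2 => ((JJ y) ^ (μ : ℂ)).re) x :=
      Complex.reCLM.contDiff.contDiffAt.comp x h3
    refine h4.congr_of_eventuallyEq ?_
    filter_upwards [slt_open.mem_nhds hx] with y hy
    exact Hf_eq μ hy
  · have hz := slt_ne hx
    rw [(Hf_grad μ hx).gradient]
    refine ⟨?_, ?_⟩
    · rw [← JJ.inner_map_map, JJ.apply_symm_apply, Complex.inner, ← map_mul, Complex.conj_re,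
        Hf_eq μ hx]
      have e : dF μ x * JJ x = (μ : ℂ) * (JJ x) ^ (μ : ℂ) := by
        unfold dF
        rw [mul_assoc, Complex.cpow_sub _ _ hz, Complex.cpow_one, div_mul_cancel₀ _ hz]
      rw [e, Complex.re_ofReal_mul]
    · rw [JJ.symm.norm_map, Complex.norm_conj]
      unfold dF
      rw [norm_mul, Complex.norm_real, Real.norm_eq_abs]
      have e : (μ : ℂ) - 1 = ((μ - 1 : ℝ) : ℂ) := by push_cast; rfl
      rw [e, Complex.norm_cpow_real, JJ.norm_map]

end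

end Pool.Agent.BES.H77
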